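import Pool.Agent.Q55.KY.Stm

/-! Project KY of helper55, job CHN. -/

namespace Pool.Agent.Q154.KY
open Pool.Agent.Q55.KY Pool.Agent.Q55.KY.Dat

section
variable {R I X : Type} [AddCommGroup X] {D : Dat R I X}

theorem s_fix (β : R) (x : X) (h : D.ct β x = 0) : D.s β x = x := by
  unfold Dat.s; rw [h, zero_smul, sub_zero]

theorem sg (h : D.OrdF) (i : I) (β : R) (x : X) (hb : 0 < D.ct β x)
    (hl : D.ell (D.s β x) = D.ell x + 1) (hne : β ≠ D.sm i) (hi : 0 < D.ct (D.sm i) x) :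
    0 < D.ct (D.sm i) (D.s β x) := by
  by_contra hy
  have hy : D.ct (D.sm i) (D.s β x) ≤ 0 := not_lt.mp hy
  obtain ⟨β', hβ⟩ := h.cj i β hne
  obtain ⟨h1, h2⟩ := hβ x
  have h3 := h.mon β' (D.s (D.sm i) x) (by rw [h1]; exact hb)
  rw [h2] at h3
  have h4 := h.up i x hi
  rcases eq_or_lt_of_le hy with h5 | h5
  · have h6 := s_fix (D := D) (D.sm i) (D.s β x) h5
    rw [h6] at h3
    omega
  · have h6 := h.up i (D.s (D.sm i) (D.s β x)) (by rw [h.cts]; omega)
    rw [h.ss] at h6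
    omega

theorem cc (h : D.OrdF) (N j : ℕ) (i : I) (β : R) (x : X) (hb : 0 < D.ct β x)
    (hl : D.ell (D.s β x) = D.ell x + 1) (hd : (N : ℤ) ∣ (j : ℤ) * D.ct β x)
    (hne : β ≠ D.sm i) (hi : 0 < D.ct (D.sm i) x) :
    D.St N j (D.s (D.sm i) x) (D.s (D.sm i) (D.s β x)) := by
  have h0 := sg h i β x hb hl hne hi
  obtain ⟨β', hβ⟩ := h.cj i β hne
  obtain ⟨h1, h2⟩ := hβ x
  have h3 := h.up i x hi
  have h4 := h.up i _ h0
  refine ⟨β', by rw [h1]; exact hb, h2.symm, by omega, by rw [h1]; exact hd⟩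

end

theorem chn : S_Chn := by
  intro R I X _ _ D ax h
  have dvd : ∀ (N j : ℕ) x y, D.Ch N j x y → ∀ f : X →ₗ[ℤ] ℤ, (N : ℤ) ∣ (j : ℤ) * (f y - f x) := by
    intro N j x y hc f
    induction hc with
    | refl => simp
    | @tail b c _ hs ih =>
      obtain ⟨β, _, rfl, _, hd⟩ := hs
      have e : (j : ℤ) * (f (D.s β b) - f x) =
          (j : ℤ) * (f b - f x) - ((j : ℤ) * D.ct β b) * f (D.rt β) := by
        unfold Dat.s
        rw [map_sub, map_smul, smul_eq_mul]
        ring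
      rw [e]
      exact dvd_sub ih (Dvd.dvd.mul_right hd _)
  have st : ∀ (N j : ℕ) i x, 0 < D.ct (D.sm i) x → (N : ℤ) ∣ (j : ℤ) * D.ct (D.sm i) x →
      D.St N j x (D.s (D.sm i) x) := fun N j i x hi hd =>
    ⟨D.sm i, hi, rfl, h.up i x hi, hd⟩
  refine ⟨dvd, ?_, st, ?_, ?_, ?_⟩
  · intro N j x y hc
    induction hc with
    | refl => exact Relation.ReflTransGen.refl
    | @tail b c _ hs ih =>
      obtain ⟨β, h1, h2, _⟩ := hs
      exact Relation.ReflTransGen.tail ih ⟨β, h1, h2⟩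
  · intro N j i x y hc hx hy
    revert hx
    refine Relation.ReflTransGen.head_induction_on hc ?_ ?_
    · intro hx; omega
    · rintro a c ⟨β, hb, rfl, hl, hd⟩ _ ih ha
      by_cases hβ : β = D.sm i
      · subst hβ; exact hd
      · have h1 := ih (sg h i β a hb hl hβ ha)
        have e : (j : ℤ) * D.ct (D.sm i) a = (j : ℤ) * D.ct (D.sm i) (D.s β a) +
            ((j : ℤ) * D.ct β a) * D.ct (D.sm i) (D.rt β) := by
          unfold Dat.s
          rw [map_sub, map_smul, smul_eq_mul]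
          ring
        rw [e]
        exact dvd_add h1 (Dvd.dvd.mul_right hd _)
  · intro N j i x y hc hx hy
    revert hx
    refine Relation.ReflTransGen.head_induction_on hc ?_ ?_
    · intro _; exact Relation.ReflTransGen.refl
    · rintro a c ⟨β, hb, rfl, hl, hd⟩ hcy ih ha
      by_cases hβ : β = D.sm i
      · subst hβ
        have h1 : (N : ℤ) ∣ (j : ℤ) * (D.ct (D.sm i) y - D.ct (D.sm i) a) :=
          dvd N j a y (Relation.ReflTransGen.head ⟨D.sm i, hb, rfl, hl, hd⟩ hcy) _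
        have h2 : (N : ℤ) ∣ (j : ℤ) * D.ct (D.sm i) y := by
          have e : (j : ℤ) * D.ct (D.sm i) y = (j : ℤ) * (D.ct (D.sm i) y - D.ct (D.sm i) a) +
            (j : ℤ) * D.ct (D.sm i) a := by ring
          rw [e]; exact dvd_add h1 hd
        exact Relation.ReflTransGen.tail hcy (st N j i y hy h2)
      · exact Relation.ReflTransGen.head (cc h N j i β a hb hl hd hβ ha)
          (ih (sg h i β a hb hl hβ ha))
  · intro N j i x y hc hx hy
    revert hx
    refine Relation.ReflTransGen.head_induction_on hc ?_ ?_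
    · intro hx; omega
    · rintro a c ⟨β, hb, rfl, hl, hd⟩ hcy ih ha
      by_cases hβ : β = D.sm i
      · subst hβ; exact hcy
      · exact Relation.ReflTransGen.head (cc h N j i β a hb hl hd hβ ha)
          (ih (sg h i β a hb hl hβ ha))

end Pool.Agent.Q154.KY
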