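import Pool.Agent.Q55.KY.Stm

/-! Project KY of helper55, job DEM. -/

namespace Pool.Agent.Q154.KY
open Pool.Agent.Q55.KY Pool.Agent.Q55.KY.Dat

section
variable {R I X : Type} [AddCommGroup X] {D : Dat R I X}

theorem bw_lt (x : X) (N : ℕ) {j : ℕ} (hj : j < N) : bw x N j = x := by
  unfold Dat.bw; rw [if_pos hj]

theorem bw_ge (x : X) (N : ℕ) {j : ℕ} (hj : N ≤ j) : bw x N j = 0 := by
  unfold Dat.bw; rw [if_neg (by omega)]

theorem le_s {i : I} {x : X} (h : 0 ≤ D.ct (D.sm i) x) : D.Le x (D.s (D.sm i) x) := by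
  rcases eq_or_lt_of_le h with h | h
  · have : D.s (D.sm i) x = x := by unfold Dat.s; rw [← h, zero_smul, sub_zero]
    rw [this]; exact Relation.ReflTransGen.refl
  · exact Relation.ReflTransGen.single ⟨D.sm i, h, rfl⟩

theorem ant' (h : D.OrdF) {x y : X} (h1 : D.Le x y) (h2 : D.Le y x) : x = y := by
  rcases h.ant x y h1 with h3 | h3
  · exact h3
  · rcases h.ant y x h2 with h4 | h4
    · exact h4.symm
    · omega

theorem ls_orb_le (h : D.OrdF) {lam : X} {N : ℕ} (hd : D.Dom lam) {p : ℕ → X}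
    (hp : p ∈ D.LS lam N) (hc : D.ChnF) (_h0 : 0 < N) (hl : D.Le (p 0) lam) : p = bw lam N := by
  obtain ⟨h1, h2, h3⟩ := hp
  have key : ∀ j, j < N → p j = lam := by
    intro j
    induction j with
    | zero => intro hj; exact ant' h hl (h.low lam hd _ (h1 0 hj))
    | succ j ih =>
      intro hj
      have h4 := ih (by omega)
      have h5 := hc.le _ _ _ _ (h3 j hj)
      rw [h4] at h5
      exact ant' h h5 (h.low lam hd _ (h1 _ hj))
  funext j
  rcases lt_or_ge j N with hj | hj
  · rw [key j hj, bw_lt lam N hj]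
  · rw [h2 j hj, bw_ge lam N hj]

theorem climb {lam : X} {N : ℕ} (cry : D.CryF lam N) (cr2 : D.Cr2F lam N) (hN : 0 < N) (i : I) :
    ∀ n : ℕ, ∀ p ∈ D.LS lam N, D.mn i N p = -((n : ℤ) * N) →
    ∃ p' ∈ D.LS lam N, Relation.ReflTransGen (D.F i N) p' p ∧ D.mn i N p' = 0 ∧
      D.Le (p' 0) (p 0) := by
  intro n
  induction n with
  | zero =>
    intro p hp hm
    exact ⟨p, hp, Relation.ReflTransGen.refl, by rw [hm]; simp, Relation.ReflTransGen.refl⟩
  | succ n ih =>
    intro p hp hm
    have hN' : (0 : ℤ) < N := by exact_mod_cast hN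
    have hneg : D.mn i N p < 0 := by
      rw [hm]; push_cast
      have : (0 : ℤ) ≤ (n : ℤ) * N := by positivity
      nlinarith
    obtain ⟨p1, hp1, hF⟩ := cr2.pre i p hp hneg
    have hmq := cry.mq i p1 hp1 p hF
    obtain ⟨p', hp', h1, h2, h3⟩ := ih p1 hp1 (by
      have : D.mn i N p1 = D.mn i N p + N := by omega
      rw [this, hm]; push_cast; ring)
    refine ⟨p', hp', Relation.ReflTransGen.tail h1 hF, h2, Relation.ReflTransGen.trans h3 ?_⟩
    rcases cry.f0 i p1 hp1 p hF with h4 | ⟨_, h4, h5⟩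
    · rw [h4]
    · rw [h5]; exact Relation.ReflTransGen.single ⟨D.sm i, h4, rfl⟩

end

theorem dem : S_Dem := by
  intro R I X _ _ D ax h hc hl lam N hd hN cry cr2
  have hN0 := hN.1
  have hNZ : (0 : ℤ) < N := by exact_mod_cast hN0
  have cst : ∀ x ∈ D.orb lam, bw x N ∈ D.LS lam N := by
    intro x hx
    refine ⟨fun j hj => by rw [bw_lt x N hj]; exact hx, fun j hj => bw_ge x N hj, ?_⟩
    intro j hj
    rw [bw_lt x N hj, bw_lt x N (by omega)]
    exact Relation.ReflTransGen.refl
  refine ⟨?_, cst⟩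
  intro l
  induction l with
  | nil =>
    intro _
    ext p
    constructor
    · intro hp
      have hp' : p = bw lam N := hp
      rw [hp']
      refine ⟨cst lam ⟨[], rfl⟩, ?_⟩
      rw [bw_lt lam N hN0]
      exact Relation.ReflTransGen.refl
    · rintro ⟨hp, hle⟩
      exact ls_orb_le h hd hp hc hN0 hle
  | cons i m ih =>
    intro hred
    have hredm : D.Red m := by
      intro l' hl'
      have := hred (i :: l') (fun x => by
        show D.s (D.sm i) (D.act l' x) = D.s (D.sm i) (D.act m x)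
        rw [hl' x])
      simpa using this
    have hz : 0 ≤ D.ct (D.sm i) (D.act m lam) := hl.red i m hred lam hd
    have hy : D.ct (D.sm i) (D.act (i :: m) lam) ≤ 0 := by
      show D.ct (D.sm i) (D.s (D.sm i) (D.act m lam)) ≤ 0
      rw [h.cts]; omega
    have hsy : D.s (D.sm i) (D.act (i :: m) lam) = D.act m lam := h.ss _ _
    ext p
    constructor
    · rintro ⟨p', hp', hch⟩
      rw [ih hredm] at hp'
      have base : p' ∈ D.LS lam N ∧ D.Le (p' 0) (D.act (i :: m) lam) :=
        ⟨hp'.1, Relation.ReflTransGen.trans hp'.2 (le_s hz)⟩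
      show p ∈ D.LS lam N ∧ D.Le (p 0) (D.act (i :: m) lam)
      induction hch with
      | refl => exact base
      | @tail b c _ hs ih2 =>
        refine ⟨cry.mem i b ih2.1 c hs, ?_⟩
        rcases cry.f0 i b ih2.1 c hs with h4 | ⟨_, h4, h5⟩
        · rw [h4]; exact ih2.2
        · rw [h5]; exact h.z1 i _ _ ih2.2 hy
    · rintro ⟨hp, hle⟩
      obtain ⟨k, hk⟩ := cry.dvm i p hp
      have hk0 : k ≤ 0 := by
        by_contra hk0
        have h1 := cry.le0 i p hp
        rw [hk] at h1
        have := mul_pos hNZ (not_le.mp hk0)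
        omega
      obtain ⟨p', hp', h1, h2, h3⟩ := climb cry cr2 hN0 i (-k).toNat p hp (by
        rw [hk, Int.toNat_of_nonneg (by omega)]; ring)
      have h4 := cry.fst i p' hp' h2
      have h5 := h.z2 i _ _ (Relation.ReflTransGen.trans h3 hle) h4
      rw [hsy] at h5
      refine ⟨p', ?_, h1⟩
      rw [ih hredm]
      exact ⟨hp', h5⟩

end Pool.Agent.Q154.KY
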