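import Pool.Agent.Q55.KY.Stm

/-! Project KY of helper55, job DUA. -/

namespace Pool.Agent.Q154.KY
open Pool.Agent.Q55.KY Pool.Agent.Q55.KY.Dat

section
variable {R I X : Type} [AddCommGroup X] {D : Dat R I X}

theorem s_neg (β : R) (x : X) : D.s β (-x) = - D.s β x := by
  unfold Dat.s; rw [map_neg, neg_smul]; abel

theorem act_neg (l : List I) (x : X) : D.act l (-x) = - D.act l x := by
  induction l with
  | nil => rfl
  | cons i l ih => simp only [Dat.act, ih, s_neg]

theorem orb_neg {lam x : X} (h : x ∈ D.orb lam) : -x ∈ D.orb (-lam) := by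
  obtain ⟨l, rfl⟩ := h
  exact ⟨l, (act_neg l lam).symm⟩

theorem d1' [Finite R] (ax : D.Ax) (h : D.OrdF) (γ : R) (x : X) :
    {β | D.ct β (D.s γ x) ≠ 0}.ncard ≤ {β | D.ct β x ≠ 0}.ncard := by
  choose f hf using ax.refl γ
  refine Set.ncard_le_ncard_of_injOn f ?_ ?_ (Set.toFinite _)
  · intro β hβ
    have hβ' : D.ct β (D.s γ x) ≠ 0 := hβ
    show D.ct (f β) x ≠ 0
    rcases hf β with ⟨_, h2⟩ | ⟨_, h2⟩
    · rw [h2]; exact hβ'
    · rw [h2]; exact neg_ne_zero.mpr hβ'
  · intro b1 _ b2 _ e
    rcases hf b1 with ⟨h1, _⟩ | ⟨h1, _⟩ <;> rcases hf b2 with ⟨h2, _⟩ | ⟨h2, _⟩ <;>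
      rw [e, h2] at h1
    · have := congrArg (D.s γ) h1
      rw [h.ss, h.ss] at this
      exact (ax.inj this).symm
    · have := congrArg (D.s γ) h1
      rw [s_neg, h.ss, h.ss] at this
      exact absurd this.symm (ax.pos _ _)
    · have := congrArg (D.s γ) h1
      rw [s_neg, h.ss, h.ss] at this
      exact absurd this (ax.pos _ _)
    · have := congrArg (D.s γ) (neg_injective h1)
      rw [h.ss, h.ss] at this
      exact (ax.inj this).symm

theorem d1 [Finite R] (ax : D.Ax) (h : D.OrdF) (γ : R) (x : X) :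
    {β | D.ct β (D.s γ x) ≠ 0}.ncard = {β | D.ct β x ≠ 0}.ncard := by
  apply le_antisymm (d1' ax h γ x)
  have := d1' ax h γ (D.s γ x)
  rwa [h.ss] at this

theorem d2 [Finite R] (x : X) :
    D.ell x + D.ell (-x) = {β | D.ct β x ≠ 0}.ncard := by
  unfold Dat.ell
  rw [← Set.ncard_union_eq ?_ (Set.toFinite _) (Set.toFinite _)]
  · congr 1
    ext β
    constructor
    · rintro (h | h)
      · exact ne_of_lt h
      · have h' : D.ct β (-x) < 0 := h
        rw [map_neg] at h'
        show D.ct β x ≠ 0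
        omega
    · intro h
      have h' : D.ct β x ≠ 0 := h
      rcases lt_or_gt_of_ne h' with h1 | h1
      · exact Or.inl h1
      · refine Or.inr ?_
        show D.ct β (-x) < 0
        rw [map_neg]; omega
  · rw [Set.disjoint_left]
    intro β h1 h2
    have h1' : D.ct β x < 0 := h1
    have h2' : D.ct β (-x) < 0 := h2
    rw [map_neg] at h2'
    omega

theorem d3 [Finite R] (ax : D.Ax) (h : D.OrdF) {N j : ℕ} {x y : X} (hs : D.St N j x y) :
    D.St N j (-y) (-x) := by
  obtain ⟨β, h1, rfl, h3, h4⟩ := hs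
  have e : D.ct β (-(D.s β x)) = D.ct β x := by rw [map_neg, h.cts, neg_neg]
  refine ⟨β, by rw [e]; exact h1, by rw [s_neg, h.ss], ?_, by rw [e]; exact h4⟩
  have a1 := d2 (D := D) x
  have a2 := d2 (D := D) (D.s β x)
  have a3 := d1 ax h β x
  omega

theorem d3c [Finite R] (ax : D.Ax) (h : D.OrdF) {N j : ℕ} {x y : X} (hs : D.Ch N j x y) :
    D.Ch N j (-y) (-x) := by
  induction hs with
  | refl => exact Relation.ReflTransGen.refl
  | tail _ hs ih => exact Relation.ReflTransGen.head (d3 ax h hs) ih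

theorem d4 {N j k : ℕ} (hjk : j + k = N) {x y : X} (hs : D.Ch N j x y) : D.Ch N k x y := by
  induction hs with
  | refl => exact Relation.ReflTransGen.refl
  | tail _ hs ih =>
    refine Relation.ReflTransGen.tail ih ?_
    obtain ⟨β, h1, h2, h3, h4⟩ := hs
    refine ⟨β, h1, h2, h3, ?_⟩
    rename_i b c _
    have e : (k : ℤ) * D.ct β b = (N : ℤ) * D.ct β b - (j : ℤ) * D.ct β b := by
      rw [← hjk]; push_cast; ring
    rw [e]
    exact dvd_sub (Dvd.intro _ rfl) h4

theorem dl_lt (N : ℕ) (p : ℕ → X) {j : ℕ} (hj : j < N) : dl N p j = - p (N - 1 - j) := by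
  unfold Dat.dl; rw [if_pos hj]

theorem dl_ge (N : ℕ) (p : ℕ → X) {j : ℕ} (hj : N ≤ j) : dl N p j = 0 := by
  unfold Dat.dl; rw [if_neg (by omega)]

theorem hd' (i : I) (N : ℕ) (p : ℕ → X) (j : ℕ) (hj : j ≤ N) :
    D.H i (dl N p) j = D.H i p (N - j) - D.H i p N := by
  induction j with
  | zero => simp [Dat.H]
  | succ j ih =>
    have e1 : D.H i (dl N p) (j + 1) = D.H i (dl N p) j + D.ct (D.sm i) (dl N p j) :=
      Finset.sum_range_succ _ _
    have e2 : D.H i p (N - j) = D.H i p (N - (j + 1)) + D.ct (D.sm i) (p (N - 1 - j)) := by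
      have : N - j = (N - (j + 1)) + 1 := by omega
      rw [this]
      have e3 : N - 1 - j = N - (j + 1) := by omega
      rw [e3]
      exact Finset.sum_range_succ _ _
    have e4 : dl N p j = - p (N - 1 - j) := by
      unfold Dat.dl; rw [if_pos (by omega)]
    rw [e1, ih (by omega), e2, e4, map_neg]
    ring

theorem md' (i : I) (N : ℕ) (p : ℕ → X) :
    D.mn i N (dl N p) = D.mn i N p - D.H i p N := by
  unfold Dat.mn
  apply le_antisymm
  · obtain ⟨j, hj, e⟩ := Finset.exists_mem_eq_inf' (s := Finset.range (N + 1)) ⟨0, by simp⟩ (D.H i p)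
    have hj' : j ≤ N := by rw [Finset.mem_range] at hj; omega
    rw [e]
    have := Finset.inf'_le (D.H i (dl N p)) (s := Finset.range (N + 1)) (b := N - j)
      (by rw [Finset.mem_range]; omega)
    refine this.trans ?_
    rw [hd' i N p (N - j) (by omega)]
    rw [show N - (N - j) = j by omega]
  · apply Finset.le_inf'
    intro j hj
    have hj' : j ≤ N := by rw [Finset.mem_range] at hj; omega
    rw [hd' i N p j hj']
    have := Finset.inf'_le (D.H i p) (s := Finset.range (N + 1)) (b := N - j)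
      (by rw [Finset.mem_range]; omega)
    exact sub_le_sub_right this _

end

theorem dua : S_Dua := by
  intro R I X _ _ D ax h lam N hN
  refine ⟨⟨hN.1, ?_⟩, ?_, ?_, fun i p j => hd' i N p j, fun i p => md' i N p⟩
  · intro x hx β hβ
    have h1 := orb_neg hx
    rw [neg_neg] at h1
    have h2 := hN.2 (-x) h1 β (by rw [map_neg]; exact neg_ne_zero.mpr hβ)
    rw [map_neg] at h2
    exact (neg_dvd).mp h2
  · rintro p ⟨h1, h2, h3⟩
    refine ⟨?_, ?_, ?_⟩
    · intro j hj
      have e4 : dl N p j = - p (N - 1 - j) := by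
        unfold Dat.dl; rw [if_pos hj]
      rw [e4]
      exact orb_neg (h1 _ (by omega))
    · intro j hj
      unfold Dat.dl; rw [if_neg (by omega)]
    · intro j hj
      have e1 : dl N p (j + 1) = - p (N - 2 - j) := by
        unfold Dat.dl; rw [if_pos hj]
        rw [show N - 1 - (j + 1) = N - 2 - j by omega]
      have e2 : dl N p j = - p (N - 2 - j + 1) := by
        unfold Dat.dl; rw [if_pos (by omega)]
        rw [show N - 1 - j = N - 2 - j + 1 by omega]
      rw [e1, e2]
      apply d3c ax h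
      exact d4 (by omega) (h3 (N - 2 - j) (by omega))
  · rintro p ⟨h1, h2, h3⟩
    funext j
    by_cases hj : j < N
    · rw [dl_lt N _ hj, dl_lt N p (by omega), neg_neg, show N - 1 - (N - 1 - j) = j by omega]
    · rw [h2 j (by omega), dl_ge N _ (by omega)]

end Pool.Agent.Q154.KY
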