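import Pool.Agent.Q154.KY.Dua

/-! Project KY of helper55, job DUF. -/

namespace Pool.Agent.Q154.KY
open Pool.Agent.Q55.KY Pool.Agent.Q55.KY.Dat

section
variable {R I X : Type} [AddCommGroup X] {D : Dat R I X}

theorem dualg (h : D.OrdF) (N : ℕ)
    (hPF : ∀ (i : I) (p : ℕ → X) (a b : ℕ), D.FD i N p a b → D.PF i N p a b)
    (lam : X) (cry : D.CryF lam N) (i : I) (p : ℕ → X) (hp : p ∈ D.LS lam N) (q : ℕ → X)
    (hF : D.F i N p q) : D.F i N (dl N q) (dl N p) := by
  obtain ⟨a, b, fd, rfl⟩ := cry.fd i p hp q hF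
  have pf := hPF i p a b fd
  have hab := fd.ab
  have hbN := fd.bN
  have hN : (0 : ℤ) < (N : ℤ) := by
    have : 0 < N := by omega
    exact_mod_cast this
  have hmn : D.mn i N (dl N (D.rf i a b p)) =
      D.mn i N p - N - D.H i (D.rf i a b p) N := by rw [md', pf.m]
  have hH : ∀ j, j ≤ N → D.H i (dl N (D.rf i a b p)) j =
      D.H i (D.rf i a b p) (N - j) - D.H i (D.rf i a b p) N := fun j hj => hd' i N _ j hj
  refine ⟨N - b, N - a, ⟨by omega, by omega, ?_, ?_, ?_, ?_⟩, ?_⟩
  · rw [hH _ (by omega), hmn, show N - (N - b) = b by omega, pf.h2 b hab.le le_rfl, fd.Hb]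
    ring
  · intro j h1 h2
    rw [hH _ h2, hmn]
    rcases le_or_gt (N - j) a with h3 | h3
    · rw [pf.h1 _ h3]
      have := fd.le (N - j) (by omega)
      omega
    · rw [pf.h2 _ h3.le (by omega)]
      have := fd.mid (N - j) h3 (by omega)
      omega
  · rw [hH _ (by omega), hmn, show N - (N - a) = a by omega, pf.h1 a le_rfl, fd.Ha]
    omega
  · intro j h1 h2
    rw [hH _ (by omega), hmn, pf.h2 (N - j) (by omega) (by omega)]
    have := fd.aft (N - j) (by omega) (by omega)
    omega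
  · funext j
    rcases lt_or_ge j N with hj | hj
    · by_cases hc : N - b ≤ j ∧ j < N - a
      · have e1 : D.rf i (N - b) (N - a) (dl N (D.rf i a b p)) j =
            D.s (D.sm i) (dl N (D.rf i a b p) j) := by
          unfold Dat.rf; rw [if_pos hc]
        have e2 : D.rf i a b p (N - 1 - j) = D.s (D.sm i) (p (N - 1 - j)) := by
          unfold Dat.rf; rw [if_pos (by omega)]
        rw [e1, dl_lt N _ hj, dl_lt N _ hj, e2, s_neg, h.ss]
      · have e1 : D.rf i (N - b) (N - a) (dl N (D.rf i a b p)) j =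
            dl N (D.rf i a b p) j := by
          unfold Dat.rf; rw [if_neg hc]
        have e2 : D.rf i a b p (N - 1 - j) = p (N - 1 - j) := by
          unfold Dat.rf; rw [if_neg (by omega)]
        rw [e1, dl_lt N _ hj, dl_lt N _ hj, e2]
    · have e1 : D.rf i (N - b) (N - a) (dl N (D.rf i a b p)) j =
          dl N (D.rf i a b p) j := by
        unfold Dat.rf; rw [if_neg (by omega)]
      rw [e1, dl_ge N _ hj, dl_ge N _ hj]

end

theorem duf : S_Duf := by
  intro R I X _ _ D ax h N hPF hall lam hN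
  obtain ⟨cry, dua⟩ := hall lam hN
  refine ⟨fun i p hp q hF => dualg h N hPF lam cry i p hp q hF, ?_⟩
  intro i p hp hm
  obtain ⟨cry', dua'⟩ := hall (-lam) dua.adm
  have hNpos : (0 : ℤ) < (N : ℤ) := by exact_mod_cast hN.1
  have h1 : D.mn i N p ≤ -(N : ℤ) := by
    have := cry.dvm i p hp
    obtain ⟨k, hk⟩ := this
    rw [hk] at hm ⊢
    have hk0 : k < 0 := by
      by_contra hk0
      have := mul_nonneg hNpos.le (not_lt.mp hk0)
      omega
    nlinarith
  have h2 : dl N p ∈ D.LS (-lam) N := dua.ls p hp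
  have h3 : D.mn i N (dl N p) = D.mn i N p - D.H i p N := md' i N p
  have h4 : D.H i (dl N p) N = - D.H i p N := by
    rw [hd' i N p N le_rfl, Nat.sub_self]
    simp [Dat.H]
  obtain ⟨r, hr⟩ := cry'.ex i _ h2 (by rw [h3, h4]; omega)
  have hr' := cry'.mem i _ h2 r hr
  have h5 := dualg h N hPF (-lam) cry' i _ h2 r hr
  rw [dua.dd p hp] at h5
  have h6 := dua'.ls r hr'
  rw [neg_neg] at h6
  exact ⟨dl N r, h6, h5⟩

end Pool.Agent.Q154.KY
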